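import Pool.Agent.Helper27.Mess.Defs

/-!
# MS-4 : equivariant lifting for a projective module restricted to a subgroup (MP_dbae29_al)
-/

set_option autoImplicit false

namespace Pool.Agent.Helper27.Mess

open Finset
open scoped IsMulCommutative

universe u v w

variable {Γ : Type u} [Group Γ] {C : Type v} [AddCommGroup C] [Module (MonoidAlgebra ℤ Γ) C]

/-- The additive map out of the free module on a set `X` with given values on the elements
`γ • e x`. -/
noncomputable def freeMap {X : Type*} {M : Type*} [AddCommGroup M] (u : X → Γ → M) :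
    (X →₀ MonoidAlgebra ℤ Γ) →+ M :=
  Finsupp.liftAddHom fun c =>
    (Finsupp.liftAddHom fun γ => (zmultiplesHom M) (u c γ)).comp
      (MonoidAlgebra.coeffAddEquiv (R := ℤ) (M := Γ)).toAddMonoidHom

theorem freeMap_single {X : Type*} {M : Type*} [AddCommGroup M] (u : X → Γ → M) (c : X) (γ : Γ)
    (n : ℤ) : freeMap u (Finsupp.single c (MonoidAlgebra.single γ n)) = n • u c γ := by
  simp [freeMap]

theorem free_ext {X : Type*} {N : Type*} [AddCommGroup N] {f g : (X →₀ MonoidAlgebra ℤ Γ) →+ N}
    (h : ∀ c γ, f (Finsupp.single c (MonoidAlgebra.single γ (1 : ℤ))) =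
      g (Finsupp.single c (MonoidAlgebra.single γ (1 : ℤ)))) : f = g := by
  refine Finsupp.addHom_ext' fun c => ?_
  refine MonoidAlgebra.addHom_ext' fun γ => ?_
  refine AddMonoidHom.ext_int ?_
  exact h c γ

theorem of_smul_single {X : Type*} (g : Γ) (c : X) (γ : Γ) (n : ℤ) :
    MonoidAlgebra.of ℤ Γ g • (Finsupp.single c (MonoidAlgebra.single γ n)) =
      Finsupp.single c (MonoidAlgebra.single (g * γ) n) := by
  rw [Finsupp.smul_single, smul_eq_mul, MonoidAlgebra.of_apply, MonoidAlgebra.single_mul_single,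
    one_mul]

/-- MS-4: equivariant lifting for a projective module restricted to a subgroup. -/
theorem equivariant_lift [Module.Projective (MonoidAlgebra ℤ Γ) C] (H : Subgroup Γ)
    {M : Type*} {M' : Type*} [AddCommGroup M] [AddCommGroup M'] [DistribMulAction H M]
    [DistribMulAction H M'] (p : M →+ M') (hp : Function.Surjective p)
    (hpe : ∀ (g : H) (m : M), p (g • m) = g • p m)
    (f : C →+ M') (hf : ∀ (g : H) (x : C), f (act (g : Γ) x) = g • f x) :
    ∃ F : C →+ M, (∀ (g : H) (x : C), F (act (g : Γ) x) = g • F x) ∧ ∀ x, p (F x) = f x := by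
  classical
  -- representatives of the right cosets of H
  obtain ⟨σ, hσ1, hσ2⟩ : ∃ σ : Γ → Γ, (∀ (g : H) (γ : Γ), σ ((g : Γ) * γ) = σ γ) ∧
      ∀ γ : Γ, γ * (σ γ)⁻¹ ∈ H := by
    refine ⟨fun γ => Quotient.out (Quotient.mk (QuotientGroup.rightRel H) γ), ?_, ?_⟩
    · intro g γ
      have h1 : Quotient.mk (QuotientGroup.rightRel H) ((g : Γ) * γ) =
          Quotient.mk (QuotientGroup.rightRel H) γ := by
        apply Quotient.sound
        change QuotientGroup.rightRel H ((g : Γ) * γ) γ
        rw [QuotientGroup.rightRel_apply, mul_inv_rev, mul_inv_cancel_left]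
        exact H.inv_mem g.2
      simp only [h1]
    · intro γ
      have h1 : QuotientGroup.rightRel H
          (Quotient.out (Quotient.mk (QuotientGroup.rightRel H) γ)) γ :=
        Quotient.mk_out (s := QuotientGroup.rightRel H) γ
      rwa [QuotientGroup.rightRel_apply] at h1
  choose m hm using fun c : C × Γ => hp (f (act c.2 c.1))
  let u : C → Γ → M := fun c γ => (⟨γ * (σ γ)⁻¹, hσ2 γ⟩ : H) • m (c, σ γ)
  have hu1 : ∀ (g : H) (c : C) (γ : Γ), u c ((g : Γ) * γ) = g • u c γ := by
    intro g c γ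
    change (⟨(g : Γ) * γ * (σ ((g : Γ) * γ))⁻¹, hσ2 _⟩ : H) • m (c, σ ((g : Γ) * γ)) =
      g • ((⟨γ * (σ γ)⁻¹, hσ2 γ⟩ : H) • m (c, σ γ))
    rw [smul_smul]
    have h1 : (⟨(g : Γ) * γ * (σ ((g : Γ) * γ))⁻¹, hσ2 _⟩ : H) =
        g * (⟨γ * (σ γ)⁻¹, hσ2 γ⟩ : H) := by
      apply Subtype.ext
      change (g : Γ) * γ * (σ ((g : Γ) * γ))⁻¹ = (g : Γ) * (γ * (σ γ)⁻¹)
      rw [hσ1, mul_assoc]
    rw [h1, hσ1]
  have hu2 : ∀ (c : C) (γ : Γ), p (u c γ) = f (act γ c) := by
    intro c γ
    change p ((⟨γ * (σ γ)⁻¹, hσ2 γ⟩ : H) • m (c, σ γ)) = _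
    rw [hpe, hm, ← hf, ← act_mul]
    simp
  obtain ⟨s, hs⟩ := (inferInstance : Module.Projective (MonoidAlgebra ℤ Γ) C).out
  refine ⟨(freeMap u).comp s.toAddMonoidHom, ?_, ?_⟩
  · intro g x
    have key : (freeMap u).comp (DistribSMul.toAddMonoidHom (C →₀ MonoidAlgebra ℤ Γ)
        (MonoidAlgebra.of ℤ Γ (g : Γ))) = (DistribSMul.toAddMonoidHom M g).comp (freeMap u) := by
      apply free_ext
      intro c γ
      simp only [AddMonoidHom.comp_apply, DistribSMul.toAddMonoidHom_apply]
      rw [of_smul_single, freeMap_single, freeMap_single, one_smul, one_smul, hu1]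
    have h1 := DFunLike.congr_fun key (s x)
    simp only [AddMonoidHom.comp_apply, DistribSMul.toAddMonoidHom_apply] at h1
    change freeMap u (s (act (g : Γ) x)) = g • freeMap u (s x)
    rw [act_def, map_smul]
    exact h1
  · intro x
    have key : p.comp (freeMap u) = f.comp
        (Finsupp.linearCombination (MonoidAlgebra ℤ Γ) (id : C → C)).toAddMonoidHom := by
      apply free_ext
      intro c γ
      simp only [AddMonoidHom.comp_apply, LinearMap.toAddMonoidHom_coe,
        Finsupp.linearCombination_single, id]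
      rw [freeMap_single, one_smul, hu2]
      rfl
    have h1 := DFunLike.congr_fun key (s x)
    simp only [AddMonoidHom.comp_apply, LinearMap.toAddMonoidHom_coe] at h1
    rw [hs x] at h1
    exact h1

end Pool.Agent.Helper27.Mess
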