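import Pool.Agent.Helper27.Mess.Basic

/-!
# MS-9 : the root lemma (MP_dbae29_al)
-/

set_option autoImplicit false

namespace Pool.Agent.Helper27.Mess

open Finset
open scoped IsMulCommutative

universe u v w

section comm

variable {Z : Type*} [CommRing Z]

/-- one unit -/
theorem exists_quot_one (aug : Z →+* ℤ) (u : Zˣ) (hu : aug (u : Z) = 1) (m : ℤ) :
    ∃ c : Z, c * ((u : Z) - 1) = ((u ^ m : Zˣ) : Z) - 1 ∧ aug c = m := by
  have hnat : ∀ n : ℕ, ∃ c : Z, c * ((u : Z) - 1) = ((u ^ n : Zˣ) : Z) - 1 ∧ aug c = n := by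
    intro n
    refine ⟨∑ i ∈ range n, (u : Z) ^ i, ?_, ?_⟩
    · rw [geom_sum_mul, Units.val_pow_eq_pow_val]
    · simp [map_sum, map_pow, hu]
  obtain ⟨n, rfl | rfl⟩ := m.eq_nat_or_neg
  · obtain ⟨c, hc, h⟩ := hnat n
    exact ⟨c, by rw [hc, zpow_natCast], h⟩
  · obtain ⟨c, hc, h⟩ := hnat n
    have hinv : aug ((u⁻¹ : Zˣ) : Z) = 1 := by
      have h1 : aug ((u⁻¹ : Zˣ) : Z) * aug (u : Z) = 1 := by
        rw [← map_mul, Units.inv_mul, map_one]
      rwa [hu, mul_one] at h1
    refine ⟨-((((u⁻¹) ^ n : Zˣ) : Z) * c), ?_, ?_⟩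
    · rw [neg_mul, mul_assoc, hc, mul_sub, mul_one, ← Units.val_mul, ← mul_pow, inv_mul_cancel,
        one_pow, Units.val_one, zpow_neg, zpow_natCast, inv_pow]
      ring
    · rw [map_neg, map_mul, h, Units.val_pow_eq_pow_val, map_pow, hinv, one_pow, one_mul]

/-- several units -/
theorem exists_quot {ι : Type*} [Fintype ι] (aug : Z →+* ℤ) (u : ι → Zˣ)
    (hu : ∀ j, aug (u j : Z) = 1) (m : ι → ℤ) :
    ∃ s : ι → Z, ∑ j, s j * ((u j : Z) - 1) = ((∏ j, u j ^ m j : Zˣ) : Z) - 1 ∧
      ∀ j, aug (s j) = m j := by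
  classical
  choose c hc hc' using fun j => exists_quot_one aug (u j) (hu j) (m j)
  have key : ∀ T : Finset ι, ∃ s : ι → Z,
      ∑ j ∈ T, s j * ((u j : Z) - 1) = ((∏ j ∈ T, u j ^ m j : Zˣ) : Z) - 1 ∧
        ∀ j ∈ T, aug (s j) = m j := by
    intro T
    induction T using Finset.induction_on with
    | empty => exact ⟨fun _ => 0, by simp⟩
    | insert i T hi ih =>
      obtain ⟨s, hs, hs'⟩ := ih
      refine ⟨fun j => if j = i then c i * ((∏ j ∈ T, u j ^ m j : Zˣ) : Z) else s j, ?_, ?_⟩
      · rw [Finset.sum_insert hi, Finset.prod_insert hi]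
        dsimp only
        rw [if_pos rfl]
        have h1 : ∑ j ∈ T, (if j = i then c i * ((∏ j ∈ T, u j ^ m j : Zˣ) : Z) else s j) *
            ((u j : Z) - 1) = ∑ j ∈ T, s j * ((u j : Z) - 1) := by
          refine Finset.sum_congr rfl fun j hj => ?_
          rw [if_neg (fun h : j = i => hi (h ▸ hj))]
        rw [h1, hs, Units.val_mul]
        have h2 := hc i
        linear_combination ((∏ j ∈ T, u j ^ m j : Zˣ) : Z) * h2
      · intro j hj
        dsimp only
        rcases Finset.mem_insert.1 hj with rfl | hj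
        · rw [if_pos rfl, map_mul, hc']
          have h1 : aug ((∏ j ∈ T, u j ^ m j : Zˣ) : Z) = 1 := by
            have h2 : Units.map (aug : Z →* ℤ) (∏ j ∈ T, u j ^ m j) = 1 := by
              rw [map_prod]
              refine Finset.prod_eq_one fun j _ => ?_
              rw [map_zpow]
              have h3 : Units.map (aug : Z →* ℤ) (u j) = 1 := Units.ext (hu j)
              rw [h3, one_zpow]
            exact congrArg Units.val h2
          rw [h1, mul_one]
        · rw [if_neg (fun h : j = i => hi (h ▸ hj))]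
          exact hs' j hj
  obtain ⟨s, hs, hs'⟩ := key Finset.univ
  exact ⟨s, hs, fun j => hs' j (Finset.mem_univ j)⟩

end comm

section center

variable (Γ : Type u) [Group Γ]

/-- central elements of the group are central in the group ring -/
theorem of_mem_center (z : Subgroup.center Γ) :
    MonoidAlgebra.of ℤ Γ (z : Γ) ∈ Subring.center (MonoidAlgebra ℤ Γ) := by
  rw [Subring.mem_center_iff]
  intro s
  induction s using MonoidAlgebra.induction_linear with
  | zero => rw [zero_mul, mul_zero]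
  | add f g hf hg => rw [add_mul, mul_add, hf, hg]
  | single γ n =>
    rw [MonoidAlgebra.of_apply, MonoidAlgebra.single_mul_single, MonoidAlgebra.single_mul_single,
      one_mul, mul_one]
    congr 1
    exact Subgroup.mem_center_iff.1 z.2 γ

/-- the central units -/
noncomputable def cU : Subgroup.center Γ →* (Subring.center (MonoidAlgebra ℤ Γ))ˣ :=
  MonoidHom.toHomUnits
    { toFun := fun z => ⟨MonoidAlgebra.of ℤ Γ (z : Γ), of_mem_center Γ z⟩
      map_one' := by
        apply Subtype.ext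
        change MonoidAlgebra.of ℤ Γ 1 = 1
        exact map_one _
      map_mul' := by
        intro x y
        apply Subtype.ext
        change MonoidAlgebra.of ℤ Γ ((x : Γ) * (y : Γ)) = _
        exact map_mul _ _ _ }

theorem cU_val (z : Subgroup.center Γ) :
    (((cU Γ z : (Subring.center (MonoidAlgebra ℤ Γ))ˣ) : Subring.center (MonoidAlgebra ℤ Γ)) :
      MonoidAlgebra ℤ Γ) = MonoidAlgebra.of ℤ Γ (z : Γ) := rfl

/-- the augmentation -/
noncomputable def augR : MonoidAlgebra ℤ Γ →+* ℤ :=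
  (MonoidAlgebra.lift ℤ ℤ Γ (1 : Γ →* ℤ)).toRingHom

theorem augR_of (g : Γ) : augR Γ (MonoidAlgebra.of ℤ Γ g) = 1 := by
  simp [augR]

end center

variable {Γ : Type u} [Group Γ] {C : Type v} [AddCommGroup C] [Module (MonoidAlgebra ℤ Γ) C]

theorem inv_smul {ω : C →+ ℤ} (hω : ω ∈ Inv (⊤ : Subgroup Γ) C ℤ) (s : MonoidAlgebra ℤ Γ) (x : C) :
    ω (s • x) = augR Γ s * ω x := by
  induction s using MonoidAlgebra.induction_linear with
  | zero => simp
  | add f g hf hg => rw [add_smul, map_add, hf, hg, map_add, add_mul]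
  | single γ n =>
    have h1 : (MonoidAlgebra.single γ n : MonoidAlgebra ℤ Γ) = n • MonoidAlgebra.of ℤ Γ γ := by
      simp
    rw [h1, map_zsmul, augR_of, smul_assoc, map_zsmul, ← act_def, hω γ (Subgroup.mem_top γ)]
    simp

/-- `t - 1` is injective on a projective module if `t` has infinite order -/
theorem act_sub_injective [Module.Projective (MonoidAlgebra ℤ Γ) C] (t : Γ)
    (ht : ∀ k : ℕ, 0 < k → t ^ k ≠ 1) (x : C) (hx : act t x = x) : x = 0 := by
  classical
  obtain ⟨s, hs⟩ := (inferInstance : Module.Projective (MonoidAlgebra ℤ Γ) C).out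
  have h1 : ∀ c, MonoidAlgebra.of ℤ Γ t * (s x) c = (s x) c := by
    intro c
    have h2 : s (act t x) = s x := by rw [hx]
    rw [act_def, map_smul] at h2
    exact DFunLike.congr_fun h2 c
  have h3 : ∀ y : MonoidAlgebra ℤ Γ, MonoidAlgebra.of ℤ Γ t * y = y → y = 0 := by
    intro y hy
    by_contra hne
    have h4 : ∀ γ, y.coeff (t * γ) = y.coeff γ := by
      intro γ
      conv_lhs => rw [← hy]
      rw [MonoidAlgebra.of_apply, MonoidAlgebra.coeff_single_mul_mul, one_mul]
    obtain ⟨γ, hγ⟩ : ∃ γ, y.coeff γ ≠ 0 := by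
      by_contra hcon
      push Not at hcon
      apply hne
      apply MonoidAlgebra.ext
      refine Finsupp.ext fun γ => ?_
      rw [hcon γ]
      rfl
    have h5 : ∀ k : ℕ, y.coeff (t ^ k * γ) = y.coeff γ := by
      intro k
      induction k with
      | zero => rw [pow_zero, one_mul]
      | succ k ih => rw [pow_succ', mul_assoc, h4, ih]
    have hinj : Function.Injective (fun k : ℕ => t ^ k * γ) := by
      intro i j hij
      simp only at hij
      have h6 : t ^ i = t ^ j := mul_right_cancel hij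
      by_contra hne'
      rcases lt_or_gt_of_ne hne' with h | h
      · apply ht (j - i) (by omega)
        have h7 : t ^ (j - i) * t ^ i = t ^ j := by rw [← pow_add]; congr 1; omega
        rw [← h6] at h7
        exact mul_eq_right.1 h7
      · apply ht (i - j) (by omega)
        have h7 : t ^ (i - j) * t ^ j = t ^ i := by rw [← pow_add]; congr 1; omega
        rw [h6] at h7
        exact mul_eq_right.1 h7
    have hsub : Set.range (fun k : ℕ => t ^ k * γ) ⊆ (y.coeff.support : Set Γ) := by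
      rintro _ ⟨k, rfl⟩
      rw [Finset.mem_coe, Finsupp.mem_support_iff, h5 k]
      exact hγ
    exact Set.infinite_range_of_injective hinj (y.coeff.support.finite_toSet.subset hsub)
  have h8 : s x = 0 := Finsupp.ext fun c => h3 _ (h1 c)
  have h9 := hs x
  rw [h8, map_zero] at h9
  exact h9.symm

section D

variable {G : GrRes Γ C} {r : ℕ} {a : Fin r → Subgroup.center Γ} (S : DSys G a)

/-- the operator `∑ s ^ k h k` for central elements `s j` of the group ring -/
noncomputable def DSys.Dc (s : Fin r → Subring.center (MonoidAlgebra ℤ Γ)) : C →+ C :=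
  ∑ k ∈ S.I, (DistribSMul.toAddMonoidHom C
    ((∏ j, s j ^ k j : Subring.center (MonoidAlgebra ℤ Γ)) : MonoidAlgebra ℤ Γ)).comp
      (S.h k).toAddMonoidHom

theorem DSys.Dc_apply (s : Fin r → Subring.center (MonoidAlgebra ℤ Γ)) (x : C) :
    S.Dc s x = ∑ k ∈ S.I,
      ((∏ j, s j ^ k j : Subring.center (MonoidAlgebra ℤ Γ)) : MonoidAlgebra ℤ Γ) • S.h k x := by
  simp [DSys.Dc, AddMonoidHom.finsetSum_apply]

theorem center_smul_smul (c : Subring.center (MonoidAlgebra ℤ Γ)) (b : MonoidAlgebra ℤ Γ) (x : C) :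
    (c : MonoidAlgebra ℤ Γ) • b • x = b • (c : MonoidAlgebra ℤ Γ) • x := by
  rw [smul_smul, smul_smul, Subring.mem_center_iff.1 c.2 b]

theorem DSys.Dc_smul (s : Fin r → Subring.center (MonoidAlgebra ℤ Γ)) (b : MonoidAlgebra ℤ Γ)
    (x : C) : S.Dc s (b • x) = b • S.Dc s x := by
  rw [S.Dc_apply, S.Dc_apply, Finset.smul_sum]
  refine Finset.sum_congr rfl fun k _ => ?_
  rw [map_smul, center_smul_smul]

theorem DSys.Dc_act (s : Fin r → Subring.center (MonoidAlgebra ℤ Γ)) (g : Γ) (x : C) :
    S.Dc s (act g x) = act g (S.Dc s x) := S.Dc_smul s _ x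

/-- the square of the operator -/
theorem DSys.Dc_Dc (s : Fin r → Subring.center (MonoidAlgebra ℤ Γ)) (x : C) :
    S.Dc s (S.Dc s x) = ∑ j, (s j : MonoidAlgebra ℤ Γ) • (act (a j : Γ) x - x) := by
  classical
  have h1 : S.Dc s (S.Dc s x) = ∑ p ∈ S.I, ∑ q ∈ S.I,
      ((∏ j, s j ^ (p + q) j : Subring.center (MonoidAlgebra ℤ Γ)) : MonoidAlgebra ℤ Γ) •
        S.h p (S.h q x) := by
    rw [S.Dc_apply]
    refine Finset.sum_congr rfl fun p _ => ?_
    rw [S.Dc_apply, map_sum, Finset.smul_sum]
    refine Finset.sum_congr rfl fun q _ => ?_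
    rw [map_smul, smul_smul]
    congr 1
    simp only [Finsupp.add_apply, pow_add, Finset.prod_mul_distrib]
    rfl
  rw [h1]
  obtain ⟨J₀, hJ₀⟩ := S.sum_sum_eq (fun p q =>
      ((∏ j, s j ^ (p + q) j : Subring.center (MonoidAlgebra ℤ Γ)) : MonoidAlgebra ℤ Γ) •
        S.h p (S.h q x))
    (by
      rintro p q (hp | hq)
      · simp [S.h_out p hp]
      · simp [S.h_out q hq])
  rw [hJ₀ (J₀ ∪ Finset.univ.image (fun j : Fin r => Finsupp.single j 1))
    Finset.subset_union_left]
  have h2 : ∀ m : Fin r →₀ ℕ,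
      ∑ p ∈ antidiagonal m,
        ((∏ j, s j ^ (p.1 + p.2) j : Subring.center (MonoidAlgebra ℤ Γ)) : MonoidAlgebra ℤ Γ) •
          S.h p.1 (S.h p.2 x) =
      ∑ j, (if m = Finsupp.single j 1 then
        (s j : MonoidAlgebra ℤ Γ) • (act (a j : Γ) x - x) else 0) := by
    intro m
    have h3 : ∑ p ∈ antidiagonal m,
        ((∏ j, s j ^ (p.1 + p.2) j : Subring.center (MonoidAlgebra ℤ Γ)) : MonoidAlgebra ℤ Γ) •
          S.h p.1 (S.h p.2 x) =
        ((∏ j, s j ^ m j : Subring.center (MonoidAlgebra ℤ Γ)) : MonoidAlgebra ℤ Γ) •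
          (∑ p ∈ antidiagonal m, S.h p.1 (S.h p.2 x)) := by
      rw [Finset.smul_sum]
      refine Finset.sum_congr rfl fun p hp => ?_
      rw [HasAntidiagonal.mem_antidiagonal] at hp
      rw [hp]
    rw [h3, S.rel, Finset.smul_sum]
    refine Finset.sum_congr rfl fun j _ => ?_
    split_ifs with hm
    · congr 1
      rw [hm, Finset.prod_eq_single j]
      · simp
      · intro b _ hb
        rw [Finsupp.single_apply, if_neg (Ne.symm hb), pow_zero]
      · simp
    · simp
  rw [Finset.sum_congr rfl fun m _ => h2 m, Finset.sum_comm]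
  refine Finset.sum_congr rfl fun j _ => ?_
  rw [Finset.sum_ite_eq' , if_pos]
  exact Finset.mem_union_right _ (Finset.mem_image_of_mem _ (Finset.mem_univ j))

/-- the homotopies raise the lower bound of the degrees -/
theorem DSys.low_h {i : ℤ} {x : C} (hx : ∀ j < i, G.π j x = 0) (k : Fin r →₀ ℕ) :
    ∀ j < i + 2 * (k.degree : ℤ) - 1, G.π j (S.h k x) = 0 := by
  intro j hj
  have h1 := S.h_deg k (j - 2 * (k.degree : ℤ) + 1) x
  rw [hx _ (by linarith), map_zero] at h1
  have h2 : j - 2 * (k.degree : ℤ) + 1 + 2 * (k.degree : ℤ) - 1 = j := by ring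
  rw [h2] at h1
  exact h1.symm

theorem DSys.zero_mem_or (x : C) : 0 ∈ S.I ∨ G.d x = 0 := by
  by_cases h : (0 : Fin r →₀ ℕ) ∈ S.I
  · exact Or.inl h
  · right
    rw [← S.h_zero, S.h_out 0 h]
    rfl

/-- the operator minus the differential -/
theorem DSys.Dc_sub_d (s : Fin r → Subring.center (MonoidAlgebra ℤ Γ)) (x : C) :
    S.Dc s x - G.d x = ∑ k ∈ S.I.erase 0,
      ((∏ j, s j ^ k j : Subring.center (MonoidAlgebra ℤ Γ)) : MonoidAlgebra ℤ Γ) • S.h k x := by
  classical
  rw [S.Dc_apply, sub_eq_iff_eq_add']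
  by_cases h : (0 : Fin r →₀ ℕ) ∈ S.I
  · rw [← Finset.add_sum_erase _ _ h]
    congr 1
    rw [S.h_zero]
    simp
  · rw [Finset.erase_eq_of_notMem h, (S.zero_mem_or x).resolve_left h, zero_add]

theorem DSys.low_Dc_sub_d (s : Fin r → Subring.center (MonoidAlgebra ℤ Γ)) {i : ℤ} {x : C}
    (hx : ∀ j < i, G.π j x = 0) : ∀ j < i + 1, G.π j (S.Dc s x - G.d x) = 0 := by
  classical
  intro j hj
  rw [S.Dc_sub_d, map_sum]
  refine Finset.sum_eq_zero fun k hk => ?_
  rw [map_smul]
  have hk0 : k ≠ 0 := (Finset.mem_erase.1 hk).1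
  have hd : 0 < k.degree := by
    rw [Nat.pos_iff_ne_zero]
    intro h
    exact hk0 ((Finsupp.degree_eq_zero_iff k).1 h)
  rw [S.low_h hx k j (by have : (1 : ℤ) ≤ k.degree := by exact_mod_cast hd
                         linarith), smul_zero]

/-- MS-9: if an element `t` of infinite order has `t ^ q = ∏ a j ^ m j`, then `q` divides every
integer `N` for which `N ε` is a coboundary at the point `m`. -/
theorem root_lemma [Module.Projective (MonoidAlgebra ℤ Γ) C] (t : Γ)
    (ht : ∀ k : ℕ, 0 < k → t ^ k ≠ 1) (q : ℕ) (hq : 0 < q) (m : Fin r → ℤ)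
    (htq : t ^ q = ((∏ j, a j ^ m j : Subgroup.center Γ) : Γ)) (N : ℤ) (ω : C →+ ℤ)
    (hωinv : ω ∈ Inv (⊤ : Subgroup Γ) C ℤ) (hω : S.D m ω = N • G.ε) : (q : ℤ) ∣ N := by
  classical
  -- the central elements
  obtain ⟨s, hs, hsm⟩ := exists_quot ((augR Γ).comp (Subring.center (MonoidAlgebra ℤ Γ)).subtype)
    (fun j => cU Γ (a j)) (fun j => augR_of Γ _) m
  have hs' : ∑ j, (s j : MonoidAlgebra ℤ Γ) * (MonoidAlgebra.of ℤ Γ (a j : Γ) - 1) =
      MonoidAlgebra.of ℤ Γ (t ^ q) - 1 := by
    have h1 := congrArg (Subring.center (MonoidAlgebra ℤ Γ)).subtype hs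
    rw [map_sum] at h1
    simp only [map_mul, map_sub, map_one] at h1
    have h2 : (∏ j, cU Γ (a j) ^ m j) = cU Γ (∏ j, a j ^ m j) := by
      rw [map_prod]
      exact Finset.prod_congr rfl fun j _ => (map_zpow _ _ _).symm
    rw [h2] at h1
    rw [htq]
    exact h1
  have hDD : ∀ x, S.Dc s (S.Dc s x) = act (t ^ q) x - x := by
    intro x
    rw [S.Dc_Dc]
    have h1 : ∀ j, (s j : MonoidAlgebra ℤ Γ) • (act (a j : Γ) x - x) =
        ((s j : MonoidAlgebra ℤ Γ) * (MonoidAlgebra.of ℤ Γ (a j : Γ) - 1)) • x := by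
      intro j
      rw [mul_smul, sub_smul, one_smul, act_def]
    rw [Finset.sum_congr rfl fun j _ => h1 j, ← Finset.sum_smul, hs', sub_smul, one_smul, act_def]
  -- the value of the functional
  have hωD : ∀ x, ω (S.Dc s x) = N * G.ε x := by
    intro x
    have h1 : S.D m ω x = N * G.ε x := by
      rw [hω]
      simp
    rw [← h1, S.Dc_apply, map_sum, S.D_apply]
    refine Finset.sum_congr rfl fun k _ => ?_
    rw [inv_smul hωinv]
    congr 1
    have h2 : augR Γ ((∏ j, s j ^ k j : Subring.center (MonoidAlgebra ℤ Γ)) : MonoidAlgebra ℤ Γ) =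
        ((augR Γ).comp (Subring.center (MonoidAlgebra ℤ Γ)).subtype) (∏ j, s j ^ k j) := rfl
    rw [h2, map_prod]
    refine Finset.prod_congr rfl fun j _ => ?_
    rw [map_pow, hsm]
  have hinj := act_sub_injective (C := C) t ht
  -- the partial norm
  let Sm : C →+ C := ∑ i ∈ range q, DistribSMul.toAddMonoidHom C (MonoidAlgebra.of ℤ Γ (t ^ i))
  have hSm : ∀ x, Sm x = ∑ i ∈ range q, act (t ^ i) x := by
    intro x
    change (∑ i ∈ range q, DistribSMul.toAddMonoidHom C (MonoidAlgebra.of ℤ Γ (t ^ i))) x = _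
    rw [AddMonoidHom.finsetSum_apply]
    rfl
  have hSm1 : ∀ x, act t (Sm x) - Sm x = act (t ^ q) x - x := by
    intro x
    rw [hSm, act_sum, ← Finset.sum_sub_distrib]
    have h1 : ∀ i ∈ range q, act t (act (t ^ i) x) - act (t ^ i) x =
        act (t ^ (i + 1)) x - act (t ^ i) x := by
      intro i _
      rw [← act_mul, ← pow_succ']
    rw [Finset.sum_congr rfl h1, Finset.sum_range_sub (fun i => act (t ^ i) x), pow_zero, act_one]
  -- the main construction
  have main : ∀ i : ℕ, ∃ w y v : C, S.Dc s w = act t y - y + v ∧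
      (∀ j < (i : ℤ) + 2, G.π j v = 0) ∧ G.ε y = 1 := by
    intro i
    induction i with
    | zero =>
      obtain ⟨y', hy'⟩ := G.ε_surj 1
      let y := G.π 0 y'
      have hy : G.ε y = 1 := by rw [← hy']; exact G.ε_π y'
      have hyπ : G.π 0 y = y := G.π_self 0 y'
      have hz : G.π 0 (act t y - y) = act t y - y := by
        rw [map_sub, map_act, hyπ]
      have hd : G.d (act t y - y) = 0 := by
        rw [← hz, G.d_π]
        exact G.π_neg _ _ (by norm_num)
      have hε : G.ε (act t y - y) = 0 := by rw [map_sub, G.ε_act, sub_self]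
      obtain ⟨w', hw'⟩ := (G.exact _).1 ⟨hd, hε⟩
      let w := G.π 1 w'
      have hw : G.d w = act t y - y := by
        change G.d (G.π 1 w') = _
        rw [G.d_π, hw', sub_self, hz]
      have hlow : ∀ j < (1 : ℤ), G.π j w = 0 := fun j hj => G.π_ne j 1 w' hj.ne
      refine ⟨w, y, S.Dc s w - G.d w, ?_, ?_, hy⟩
      · rw [hw]; abel
      · intro j hj
        exact S.low_Dc_sub_d s hlow j (by push_cast at hj; linarith)
    | succ i ih =>
      obtain ⟨w, y, v, h1, h2, h3⟩ := ih
      set n : ℤ := (i : ℤ) + 2 with hn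
      have hnpos : 2 ≤ n := by omega
      -- D v
      have hDv : S.Dc s v = act t (Sm w - S.Dc s y) - (Sm w - S.Dc s y) := by
        have h4 : v = S.Dc s w - (act t y - y) := by rw [h1]; abel
        have h5 : act t (Sm w - S.Dc s y) - (Sm w - S.Dc s y) =
            (act t (Sm w) - Sm w) - (act t (S.Dc s y) - S.Dc s y) := by
          rw [act_sub]; abel
        rw [h5, hSm1, h4, map_sub, map_sub, hDD, S.Dc_act]
      let e := G.π (n - 1) (Sm w - S.Dc s y)
      have he : G.d (G.π n v) = act t e - e := by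
        have h4 : G.π (n - 1) (S.Dc s v) = act t e - e := by
          rw [hDv, map_sub, map_act]
        have h5 : G.π (n - 1) (S.Dc s v - G.d v) = 0 :=
          S.low_Dc_sub_d s h2 (n - 1) (by linarith)
        rw [map_sub, h4, sub_eq_zero] at h5
        rw [G.d_π, ← h5]
      have hde : G.d e = 0 := by
        apply hinj
        have h4 : G.d (act t e - e) = 0 := by rw [← he, G.d_d]
        rw [map_sub, map_act, sub_eq_zero] at h4
        exact h4
      have hεe : G.ε e = 0 := G.ε_π_ne (n - 1) (by omega) _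
      obtain ⟨g', hg'⟩ := (G.exact _).1 ⟨hde, hεe⟩
      let g := G.π n g'
      have hg : G.d g = e := by
        change G.d (G.π n g') = e
        rw [G.d_π, hg']
        exact G.π_self _ _
      have hgπ : G.π n g = g := G.π_self _ _
      let z := G.π n v - (act t g - g)
      have hzπ : G.π n z = z := by
        change G.π n (G.π n v - (act t g - g)) = _
        rw [map_sub, map_sub, map_act, hgπ, G.π_self]
      have hdz : G.d z = 0 := by
        change G.d (G.π n v - (act t g - g)) = 0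
        rw [map_sub, map_sub, map_act, hg, he, sub_self]
      have hεz : G.ε z = 0 := by
        rw [← hzπ]
        exact G.ε_π_ne n (by omega) z
      obtain ⟨f', hf'⟩ := (G.exact _).1 ⟨hdz, hεz⟩
      let f := G.π (n + 1) f'
      have hf : G.d f = z := by
        change G.d (G.π (n + 1) f') = z
        rw [G.d_π, hf', add_sub_cancel_right, hzπ]
      have hflow : ∀ j < n + 1, G.π j f = 0 := fun j hj => G.π_ne j (n + 1) f' hj.ne
      refine ⟨w - f, y + g, v - G.π n v - (S.Dc s f - G.d f), ?_, ?_, ?_⟩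
      · rw [map_sub, h1, hf, act_add]
        change act t y - y + v - S.Dc s f = act t y + act t g - (y + g) +
          (v - G.π n v - (S.Dc s f - (G.π n v - (act t g - g))))
        abel
      · intro j hj
        have hj' : j < n + 1 := by push_cast at hj; linarith
        rw [map_sub, S.low_Dc_sub_d s hflow j (by linarith), sub_zero, map_sub]
        rcases lt_or_eq_of_le (Int.lt_add_one_iff.1 hj') with h | h
        · rw [h2 j h, G.π_ne j n v h.ne, sub_zero]
        · rw [h, G.π_self, sub_self]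
      · rw [map_add, h3]
        have : G.ε g = 0 := G.ε_π_ne n (by omega) g'
        rw [this, add_zero]
  obtain ⟨w, y, v, h1, h2, h3⟩ := main G.n
  have hv : v = 0 := by
    rw [← G.π_sum v]
    refine Finset.sum_eq_zero fun i hi => ?_
    exact h2 i (by have := Finset.mem_range.1 hi; omega)
  rw [hv, add_zero] at h1
  have h4 : S.Dc s y = Sm w := by
    rw [← sub_eq_zero]
    apply hinj
    rw [act_sub, ← sub_eq_zero]
    have h5 : act t (S.Dc s y) - S.Dc s y = act t (Sm w) - Sm w := by
      rw [hSm1, ← hDD, h1, map_sub, S.Dc_act]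
    have h6 : act t (S.Dc s y) - act t (Sm w) - (S.Dc s y - Sm w) =
        (act t (S.Dc s y) - S.Dc s y) - (act t (Sm w) - Sm w) := by abel
    rw [h6, h5, sub_self]
  have h7 : N = q * ω w := by
    have h8 := hωD y
    rw [h3, mul_one, h4, hSm, map_sum] at h8
    rw [← h8]
    rw [Finset.sum_congr rfl fun i _ => hωinv (t ^ i) (Subgroup.mem_top _) w]
    simp
  exact ⟨ω w, h7⟩

end D

end Pool.Agent.Helper27.Mess
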